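import Pool.Agent.H487.GA.Stm2

set_option autoImplicit false

/-!
# Project GA (helper487): `S_CONEA`, the derivative is bounded by the mean of the imaginary part over a disc
-/

open Finset Complex Filter Topology Metric Set MeasureTheory

namespace Pool.Agent.H229.GA

open Pool.Agent.H487.GA

theorem circ (G : ℂ → ℂ) (z : ℂ) (R : ℝ) (hR : 0 < R) (hG : ∀ w : ℂ, ‖w - z‖ ≤ R → AnalyticAt ℂ G w) :
    Real.pi * R * ‖deriv G z‖ ≤ ∫ θ in (-Real.pi)..Real.pi, |(G (circleMap z R θ)).im| := by
  have hdiff : DifferentiableOn ℂ G (closedBall z R) := fun w hw =>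
    (hG w (by rwa [← dist_eq_norm])).differentiableAt.differentiableWithinAt
  have hmem : ∀ θ : ℝ, circleMap z R θ ∈ closedBall z R := fun θ => circleMap_mem_closedBall z hR.le θ
  have hgc : Continuous (fun θ : ℝ => G (circleMap z R θ)) :=
    hdiff.continuousOn.comp_continuous (continuous_circleMap z R) hmem
  have hRc : (R : ℂ) ≠ 0 := by exact_mod_cast hR.ne'
  have e1 : Continuous (fun θ : ℝ => cexp (θ * I)) := by fun_prop
  have e2 : Continuous (fun θ : ℝ => cexp (-(θ * I))) := by fun_prop
  -- Cauchy's theorem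
  have h1 : ∫ θ in (0:ℝ)..(2 * Real.pi), cexp (θ * I) * G (circleMap z R θ) = 0 := by
    have h := (hdiff.mono closure_ball_subset_closedBall).diffContOnCl.circleIntegral_eq_zero hR.le
    rw [circleIntegral] at h
    have e : ∀ θ : ℝ, deriv (circleMap z R) θ • G (circleMap z R θ) =
        (R * I) * (cexp (θ * I) * G (circleMap z R θ)) := by
      intro θ
      rw [deriv_circleMap, circleMap, smul_eq_mul]
      ring
    simp_rw [e] at h
    rw [intervalIntegral.integral_const_mul] at h
    rcases mul_eq_zero.mp h with h' | h'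
    · exact absurd h' (mul_ne_zero hRc I_ne_zero)
    · exact h'
  have h2 : ∫ θ in (0:ℝ)..(2 * Real.pi), cexp (-(θ * I)) * G (circleMap z R θ) =
      2 * Real.pi * R * deriv G z := by
    have h := hdiff.deriv_eq_smul_circleIntegral hR
    rw [circleIntegral] at h
    have e : ∀ θ : ℝ, deriv (circleMap z R) θ • ((1 / (circleMap z R θ - z) ^ 2) • G (circleMap z R θ)) =
        (I / R) * (cexp (-(θ * I)) * G (circleMap z R θ)) := by
      intro θ
      have hne : cexp (θ * I) ≠ 0 := Complex.exp_ne_zero _
      rw [deriv_circleMap, circleMap, smul_eq_mul, smul_eq_mul, Complex.exp_neg, circleMap]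
      rw [zero_add, add_sub_cancel_left]
      field_simp
    simp_rw [e] at h
    rw [intervalIntegral.integral_const_mul, smul_eq_mul] at h
    have hI := I_ne_zero
    generalize (∫ θ in (0:ℝ)..(2 * Real.pi), cexp (-(θ * I)) * G (circleMap z R θ)) = Y at h ⊢
    have h3 : Y = (R / I) * (I / R * Y) := by
      field_simp
    rw [h3, h]
    field_simp
  have h3 : ∫ θ in (0:ℝ)..(2 * Real.pi), cexp (-(θ * I)) * (starRingEnd ℂ) (G (circleMap z R θ)) = 0 := by
    have h := congrArg (starRingEnd ℂ) h1
    rw [map_zero, ← intervalIntegral.intervalIntegral_conj] at h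
    rw [← h]
    refine intervalIntegral.integral_congr fun θ _ => ?_
    rw [map_mul, ← Complex.exp_conj, map_mul, conj_I, conj_ofReal, mul_neg]
  have h4 : ∫ θ in (0:ℝ)..(2 * Real.pi), (cexp (-(θ * I)) * G (circleMap z R θ) -
      cexp (-(θ * I)) * (starRingEnd ℂ) (G (circleMap z R θ))) = 2 * Real.pi * R * deriv G z := by
    have i1 : IntervalIntegrable (fun θ : ℝ => cexp (-(θ * I)) * G (circleMap z R θ)) volume
        0 (2 * Real.pi) := (e2.mul hgc).intervalIntegrable _ _
    have i2 : IntervalIntegrable (fun θ : ℝ => cexp (-(θ * I)) * (starRingEnd ℂ) (G (circleMap z R θ)))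
        volume 0 (2 * Real.pi) := (e2.mul (Complex.continuous_conj.comp hgc)).intervalIntegrable _ _
    rw [intervalIntegral.integral_sub i1 i2, h2, h3, sub_zero]
  have h5 : ∀ θ : ℝ, ‖cexp (-(θ * I)) * G (circleMap z R θ) -
      cexp (-(θ * I)) * (starRingEnd ℂ) (G (circleMap z R θ))‖ = 2 * |(G (circleMap z R θ)).im| := by
    intro θ
    rw [← mul_sub, norm_mul, Complex.sub_conj]
    have : ‖cexp (-(θ * I))‖ = 1 := by
      rw [← neg_mul, ← Complex.ofReal_neg, Complex.norm_exp_ofReal_mul_I]
    rw [this, one_mul, norm_mul, norm_I, mul_one, Complex.norm_real, Real.norm_eq_abs, abs_mul, abs_two]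
  have hpi := Real.pi_pos
  have h6 := intervalIntegral.norm_integral_le_integral_norm (μ := volume)
    (f := fun θ : ℝ => cexp (-(θ * I)) * G (circleMap z R θ) -
      cexp (-(θ * I)) * (starRingEnd ℂ) (G (circleMap z R θ))) (a := 0) (b := 2 * Real.pi) (by positivity)
  rw [h4] at h6
  simp_rw [h5] at h6
  rw [intervalIntegral.integral_const_mul, norm_mul, norm_mul, norm_mul] at h6
  have h7 : ‖(2 : ℂ)‖ = 2 := by norm_num
  rw [h7, Complex.norm_real, Complex.norm_real, Real.norm_of_nonneg hpi.le, Real.norm_of_nonneg hR.le] at h6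
  have hper : Function.Periodic (fun θ : ℝ => |(G (circleMap z R θ)).im|) (2 * Real.pi) := by
    intro θ
    simp only []
    rw [periodic_circleMap z R θ]
  have h8 := hper.intervalIntegral_add_eq 0 (-Real.pi)
  rw [zero_add, show -Real.pi + 2 * Real.pi = Real.pi by ring] at h8
  rw [← h8]
  linarith

theorem conea_proof : S_CONEA := by
  intro G z ρ hρ hG
  have hpi := Real.pi_pos
  set c := ‖deriv G z‖ with hc
  have hc0 : 0 ≤ c := norm_nonneg _
  have hcont : ContinuousOn G (closedBall z ρ) := fun w hw =>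
    (hG w (by rwa [← dist_eq_norm])).continuousAt.continuousWithinAt
  have hmem : ∀ r θ : ℝ, 0 ≤ r → r ≤ ρ → circleMap z r θ ∈ closedBall z ρ := fun r θ h0 h1 =>
    closedBall_subset_closedBall h1 (circleMap_mem_closedBall z h0 θ)
  have hcm : Continuous (fun p : ℝ × ℝ => circleMap z p.1 p.2) := by
    unfold circleMap
    fun_prop
  have hFc : ContinuousOn (fun p : ℝ × ℝ => p.1 * |(G (circleMap z p.1 p.2)).im|)
      (Ioc 0 ρ ×ˢ Ioo (-Real.pi) Real.pi) := by
    refine continuousOn_fst.mul (ContinuousOn.abs (Complex.continuous_im.comp_continuousOn ?_))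
    exact hcont.comp hcm.continuousOn (fun p hp => hmem p.1 p.2 hp.1.1.le hp.1.2)
  -- inner integral
  have hinner : ∀ r ∈ Ioc (0:ℝ) ρ, ENNReal.ofReal (Real.pi * c * r ^ 2) ≤
      ∫⁻ θ in Ioo (-Real.pi) Real.pi, ENNReal.ofReal (r * |(G (circleMap z r θ)).im|) := by
    intro r hr
    have hcr : Continuous (fun θ : ℝ => r * |(G (circleMap z r θ)).im|) := by
      refine continuous_const.mul (Continuous.abs (Complex.continuous_im.comp ?_))
      exact hcont.comp_continuous (continuous_circleMap z r) (fun θ => hmem r θ hr.1.le hr.2)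
    rw [← ofReal_integral_eq_lintegral_ofReal]
    · apply ENNReal.ofReal_le_ofReal
      rw [← integral_Ioc_eq_integral_Ioo, ← intervalIntegral.integral_of_le (by linarith),
        intervalIntegral.integral_const_mul]
      have h := circ G z r hr.1 (fun w hw => hG w (hw.trans hr.2))
      calc Real.pi * c * r ^ 2 = r * (Real.pi * r * c) := by ring
        _ ≤ _ := mul_le_mul_of_nonneg_left h hr.1.le
    · have h := hcr.intervalIntegrable (μ := volume) (-Real.pi) Real.pi
      rw [intervalIntegrable_iff_integrableOn_Ioo_of_le (by linarith)] at h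
      exact h
    · exact Eventually.of_forall fun θ => mul_nonneg hr.1.le (abs_nonneg _)
  have hsub : Ioc 0 ρ ×ˢ Ioo (-Real.pi) Real.pi ⊆ _root_.polarCoord.target := by
    intro p hp
    rw [polarCoord_target]
    exact ⟨hp.1.1, hp.2⟩
  calc ENNReal.ofReal (c * ρ ^ 3)
      ≤ ENNReal.ofReal (∫ r in (0:ℝ)..ρ, Real.pi * c * r ^ 2) := by
        apply ENNReal.ofReal_le_ofReal
        rw [intervalIntegral.integral_const_mul, integral_pow]
        have h3 := Real.pi_gt_three
        have h4 : 0 ≤ c * ρ ^ 3 := by positivity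
        norm_num
        nlinarith
    _ = ∫⁻ r in Ioc (0:ℝ) ρ, ENNReal.ofReal (Real.pi * c * r ^ 2) := by
        rw [intervalIntegral.integral_of_le hρ.le, ofReal_integral_eq_lintegral_ofReal]
        · have h : Continuous (fun r : ℝ => Real.pi * c * r ^ 2) := by fun_prop
          have h' := h.intervalIntegrable (μ := volume) 0 ρ
          rwa [intervalIntegrable_iff_integrableOn_Ioc_of_le hρ.le] at h'
        · exact Eventually.of_forall fun r => by positivity
    _ ≤ ∫⁻ r in Ioc (0:ℝ) ρ, ∫⁻ θ in Ioo (-Real.pi) Real.pi,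
          ENNReal.ofReal (r * |(G (circleMap z r θ)).im|) :=
        setLIntegral_mono' measurableSet_Ioc hinner
    _ = ∫⁻ p in Ioc (0:ℝ) ρ ×ˢ Ioo (-Real.pi) Real.pi,
          ENNReal.ofReal (p.1 * |(G (circleMap z p.1 p.2)).im|) := by
        rw [Measure.volume_eq_prod, setLIntegral_prod]
        rw [← Measure.volume_eq_prod]
        exact (ENNReal.continuous_ofReal.comp_continuousOn hFc).aemeasurable
          (measurableSet_Ioc.prod measurableSet_Ioo)
    _ = ∫⁻ p in Ioc (0:ℝ) ρ ×ˢ Ioo (-Real.pi) Real.pi, ENNReal.ofReal p.1 •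
          ((closedBall z ρ).indicator (fun w => ENNReal.ofReal |(G w).im|))
            (z + Complex.polarCoord.symm p) := by
        refine setLIntegral_congr_fun (measurableSet_Ioc.prod measurableSet_Ioo) fun p hp => ?_
        have e : z + Complex.polarCoord.symm p = circleMap z p.1 p.2 := by
          rw [Complex.polarCoord_symm_apply, circleMap, Complex.exp_mul_I, Complex.ofReal_cos,
            Complex.ofReal_sin]
        rw [e, Set.indicator_of_mem (hmem p.1 p.2 hp.1.1.le hp.1.2), smul_eq_mul,
          ENNReal.ofReal_mul hp.1.1.le]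
    _ ≤ ∫⁻ p in _root_.polarCoord.target, ENNReal.ofReal p.1 •
          ((closedBall z ρ).indicator (fun w => ENNReal.ofReal |(G w).im|))
            (z + Complex.polarCoord.symm p) := lintegral_mono_set hsub
    _ = ∫⁻ w : ℂ, ((closedBall z ρ).indicator (fun w => ENNReal.ofReal |(G w).im|)) (z + w) :=
        Complex.lintegral_comp_polarCoord_symm
          (fun w => ((closedBall z ρ).indicator (fun w => ENNReal.ofReal |(G w).im|)) (z + w))
    _ = ∫⁻ w : ℂ, ((closedBall z ρ).indicator (fun w => ENNReal.ofReal |(G w).im|)) w :=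
        lintegral_add_left_eq_self _ z
    _ = ∫⁻ w in closedBall z ρ, ENNReal.ofReal |(G w).im| :=
        lintegral_indicator measurableSet_closedBall _

end Pool.Agent.H229.GA
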